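import Pool.Agent.H735Z.Main

set_option autoImplicit false

/-- Wan's conjecture on the splitting fields of the L-functions of a `ℤ_p`-tower of curves: each
`L(χ_n, s)` is a polynomial `Λ n`, and the degree over `ℚ_p` of its splitting field tends to
infinity. -/
theorem Pool.Agent.Results.MP_6895b2_nt.Full.result (p : ℕ) [Fact p.Prime] (k K Ω : Type)
    [Field k] [Finite k] [CharP k p] [Field K] [Field Ω] [Algebra k K] [Algebra K Ω] [Algebra k Ω]
    [IsScalarTower k K Ω] (F : ℕ → IntermediateField K Ω) (hF : H735Z.IsZpTower p k F)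
    (S : Set (H735Z.Place k K)) (hS : S.Finite) (hS' : H735Z.ramLocus k F ⊆ S)
    (χ : ∀ n, (F n ≃ₐ[K] F n) →* ℂ_[p]ˣ) (hχ : ∀ n, 1 ≤ n → orderOf (χ n) = p ^ n) :
    ∃ Λ : ℕ → Polynomial ℂ_[p],
      (∀ n, 1 ≤ n → (Λ n : PowerSeries ℂ_[p]) = H735Z.lfun S (χ n)) ∧
      Filter.Tendsto (fun n => Module.finrank ℚ_[p] (H735Z.rootField ℚ_[p] (Λ n)))
        Filter.atTop Filter.atTop := by
  obtain ⟨Λ, hΛ⟩ := hF.lpoly S hS hS' χ hχ
  obtain ⟨m, N, hm, h⟩ := hF.lmain S hS hS' χ hχ Λ hΛ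
  exact ⟨Λ, hΛ, H735Z.tendsto_of_bound (Fact.out : p.Prime).one_lt hm _ fun n hn => (h n hn).2.2⟩
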